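import Pool.Agent.W14.US.Stm

/-! US-LIN: linearity of the Cauchy transform. -/

set_option autoImplicit false
open Complex MeasureTheory Filter Topology Metric Set
open Pool.Agent.W14.US

namespace Pool.Agent.W609.US

theorem integrableOn_norm_inv (r : ℝ) :
    IntegrableOn (fun w : ℂ => ‖w‖⁻¹) (ball (0 : ℂ) r) := by
  rw [integrableOn_fun_norm_addHaar (volume : Measure ℂ) (f := fun y : ℝ => y⁻¹)]
  have h1 : IntegrableOn (fun _ : ℝ => (1 : ℝ)) (Ioo 0 r) := by
    simp
  refine h1.congr_fun ?_ measurableSet_Ioo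
  intro y hy
  have hy0 : y ≠ 0 := hy.1.ne'
  simp [Complex.finrank_real_complex, hy0]

/-- the integrand of the Cauchy transform is integrable -/
theorem int_T {f : ℂ → ℂ} (hf : Continuous f) (hc : HasCompactSupport f) (z : ℂ) :
    Integrable (fun w => f (z - w) * w⁻¹) := by
  obtain ⟨M, hM⟩ := hc.exists_bound_of_continuous hf
  obtain ⟨R, hR⟩ := (hc.isCompact.isBounded).subset_closedBall (0 : ℂ)
  have hM0 : 0 ≤ M := (norm_nonneg _).trans (hM 0)
  have h1 : Integrable ((ball (0 : ℂ) (R + ‖z‖ + 1)).indicator (fun w : ℂ => ‖w‖⁻¹)) :=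
    (integrable_indicator_iff measurableSet_ball).2 (integrableOn_norm_inv _)
  have hmeas : AEStronglyMeasurable (fun w => f (z - w) * w⁻¹) volume := by
    apply Measurable.aestronglyMeasurable
    exact (hf.measurable.comp (measurable_const.sub measurable_id)).mul measurable_inv
  refine (h1.const_mul M).mono' hmeas (Eventually.of_forall fun w => ?_)
  by_cases hw : w ∈ ball (0 : ℂ) (R + ‖z‖ + 1)
  · rw [Set.indicator_of_mem hw, norm_mul, norm_inv]
    exact mul_le_mul_of_nonneg_right (hM _) (inv_nonneg.2 (norm_nonneg _))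
  · have h0 : f (z - w) = 0 := by
      by_contra hne
      have h2 : z - w ∈ tsupport f := subset_tsupport _ hne
      have h3 := hR h2
      rw [mem_closedBall, dist_zero_right] at h3
      apply hw
      rw [mem_ball, dist_zero_right]
      have h4 : ‖w‖ ≤ ‖z‖ + ‖z - w‖ := by
        have : w = z - (z - w) := by ring
        calc ‖w‖ = ‖z - (z - w)‖ := by rw [← this]
          _ ≤ ‖z‖ + ‖z - w‖ := norm_sub_le _ _
      linarith
    rw [Set.indicator_of_notMem hw, h0, zero_mul, norm_zero, mul_zero]

theorem lin : S_LIN := by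
  intro f g hf hcf hg hcg a b z
  unfold T
  have h : (fun w => (a * f (z - w) + b * g (z - w)) * w⁻¹) =
      fun w => a * (f (z - w) * w⁻¹) + b * (g (z - w) * w⁻¹) := by
    funext w
    ring
  simp only [h]
  rw [integral_add ((int_T hf hcf z).const_mul a) ((int_T hg hcg z).const_mul b),
    integral_const_mul, integral_const_mul]
  ring

end Pool.Agent.W609.US
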